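import Pool.Agent.HK.Final

/-!
MP_0201c8_ag, Q1: the ideal of maximal minors of the degenerate Hankel matrix `H[r]` is of fiber
type, for every `n` and every `r ≤ n - 1`.
-/

namespace Pool.Agent.Results.MP_0201c8_ag.FiberTypeAll

open MvPolynomial

/-- The `n × (n+2)` matrix whose entry in row `i` and column `j` (both counted from `0`) is the
variable `x_{i+j}` of `K[x_0, ..., x_{m-1}]` if `i + j < m`, and `0` otherwise. With the variables,
rows and columns counted from `1` the entry in row `i` and column `j` is `x_{i+j-1}` if
`i + j - 1 ≤ m`, and `0` otherwise; for `m = 2n + 1 - r` this is the matrix `H[r]`. -/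
noncomputable def hankel (K : Type*) [Field K] (n m : ℕ) :
    Matrix (Fin n) (Fin (n + 2)) (MvPolynomial (Fin m) K) :=
  Matrix.of fun i j => if h : (i : ℕ) + (j : ℕ) < m then X ⟨(i : ℕ) + (j : ℕ), h⟩ else 0

/-- The maximal minor of the matrix on the columns given by an increasing map `f`, that is, on the
columns of an `n`-subset of the `n + 2` columns. -/
noncomputable def maxMinor (K : Type*) [Field K] (n m : ℕ) (f : Fin n ↪o Fin (n + 2)) :
    MvPolynomial (Fin m) K :=
  ((hankel K n m).submatrix id f).det

/-- The map `φ` from `S[T_f]` to `S[t]`, where `S = K[x_0, ..., x_{m-1}]`, that sends `T_f` to the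
minor on the columns `f` times `t`; its image is the Rees algebra of the ideal of maximal
minors. -/
noncomputable def phi (K : Type*) [Field K] (n m : ℕ) :
    MvPolynomial (Fin n ↪o Fin (n + 2)) (MvPolynomial (Fin m) K) →ₐ[MvPolynomial (Fin m) K]
      Polynomial (MvPolynomial (Fin m) K) :=
  aeval (fun f => Polynomial.C (maxMinor K n m f) * Polynomial.X)

/-- `F` is bihomogeneous of bidegree `(a, b)`: of degree `b` in the variables `T_f`, and all its
coefficients are homogeneous of degree `a` in `x_0, ..., x_{m-1}`. -/
def BiHom (K : Type*) [Field K] (n m a b : ℕ)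
    (F : MvPolynomial (Fin n ↪o Fin (n + 2)) (MvPolynomial (Fin m) K)) : Prop :=
  F.IsHomogeneous b ∧ ∀ d, (coeff d F).IsHomogeneous a

/-- The ideal of maximal minors is of fiber type: the kernel of `φ` is generated by its elements
that are bihomogeneous of a bidegree `(0, b)` or of a bidegree `(a, 1)`. -/
def FiberType (K : Type*) [Field K] (n m : ℕ) : Prop :=
  RingHom.ker (phi K n m) = Ideal.span
    {F | F ∈ RingHom.ker (phi K n m) ∧
      ((∃ b, BiHom K n m 0 b F) ∨ (∃ a, BiHom K n m a 1 F))}

/-- For a field of characteristic `0`, every `n` and every `r` with `0 ≤ r ≤ n - 1`, the ideal of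
maximal minors of the degenerate Hankel matrix `H[r]` is of fiber type. -/
theorem result (K : Type*) [Field K] [CharZero K] (n r : ℕ) (hr : r + 1 ≤ n) :
    FiberType K n (2 * n + 1 - r) := by
  have hm : 2 * n + 1 - r = n + (n + 1 - r) := by omega
  rw [hm]
  exact HK.fiberType K n (n + 1 - r) (by omega) (by omega)

end Pool.Agent.Results.MP_0201c8_ag.FiberTypeAll
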