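import Pool.Agent.HK2.Final

/-!
MP_0201c8_ag, Q2: for all `n` and `r` the ideal of maximal minors of the degenerate Hankel matrix
`H[r]` has linear powers.
-/

namespace Pool.Agent.Results.MP_0201c8_ag.LinearPowersAll

open MvPolynomial

/-- The `n × (n+2)` matrix whose entry in row `i` and column `j` (both counted from `0`) is the
variable `x_{i+j}` of `K[x_0, ..., x_{m-1}]` if `i + j < m`, and `0` otherwise. With the variables
counted from `1` the entry in row `i` and column `j` (counted from `1`) is `x_{i+j-1}` if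
`i + j - 1 ≤ m`; for `m = 2n + 1 - r` this is the matrix `H[r]`. -/
noncomputable def hankel (K : Type*) [Field K] (n m : ℕ) :
    Matrix (Fin n) (Fin (n + 2)) (MvPolynomial (Fin m) K) :=
  Matrix.of fun i j => if h : (i : ℕ) + (j : ℕ) < m then X ⟨(i : ℕ) + (j : ℕ), h⟩ else 0

/-- The maximal minor of the matrix on the columns given by an increasing map `f`, that is, on the
columns of an `n`-subset of the `n + 2` columns. -/
noncomputable def maxMinor (K : Type*) [Field K] (n m : ℕ) (f : Fin n ↪o Fin (n + 2)) :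
    MvPolynomial (Fin m) K :=
  ((hankel K n m).submatrix id f).det

/-- The ideal generated by the maximal minors. -/
noncomputable def minorIdeal (K : Type*) [Field K] (n m : ℕ) : Ideal (MvPolynomial (Fin m) K) :=
  Ideal.span (Set.range (maxMinor K n m))

/-- The ideal `I` of `S = K[x_0, ..., x_{m-1}]` has a `d`-linear resolution: there are ranks
`β_0, β_1, ...`, generators `g_1, ..., g_{β_0}` of `I` that are forms of degree `d`, and matrices
`A_0, A_1, ...` of linear forms, where `A_i` has `β_i` rows and `β_{i+1}` columns, such that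
`... → S^{β_2} → S^{β_1} → S^{β_0} → I → 0` with the maps `A_1`, `A_0` and `g` is exact, and
`β_i = 0` for all large `i`. This is a graded free resolution of `I` whose `i`-th module is
`S(-d-i)^{β_i}`; it is minimal, since the entries of the `A_i` have no constant term. -/
def HasLinearResolution (K : Type*) [Field K] (m : ℕ) (I : Ideal (MvPolynomial (Fin m) K))
    (d : ℕ) : Prop :=
  ∃ (β : ℕ → ℕ) (g : Fin (β 0) → MvPolynomial (Fin m) K)
    (A : ∀ i, Matrix (Fin (β i)) (Fin (β (i + 1))) (MvPolynomial (Fin m) K)),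
    (∀ k, (g k).IsHomogeneous d) ∧
    Ideal.span (Set.range g) = I ∧
    (∀ i k l, (A i k l).IsHomogeneous 1) ∧
    (∀ v : Fin (β 0) → MvPolynomial (Fin m) K,
      ∑ k, g k * v k = 0 ↔ ∃ w, v = (A 0).mulVec w) ∧
    (∀ i, ∀ v : Fin (β (i + 1)) → MvPolynomial (Fin m) K,
      (A i).mulVec v = 0 ↔ ∃ w, v = (A (i + 1)).mulVec w) ∧
    (∃ L, ∀ i, L < i → β i = 0)

section

variable {K : Type*} [Field K]

theorem of_LR {m n d : ℕ} {I : Ideal (MvPolynomial (Fin m) K)}
    (h : H48.Hk.LR K (Fin m) (n + 1) d Unit (H48.Hk.QI I)) : HasLinearResolution K m I d := by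
  obtain ⟨κ, hκ, g, h1, h2, h3⟩ := h
  obtain ⟨c, ⟨e⟩⟩ : ∃ c, Nonempty (κ ≃ Fin c) := ⟨_, ⟨Fintype.equivFin κ⟩⟩
  have hlc : ∀ v : Fin c → MvPolynomial (Fin m) K,
      Fintype.linearCombination (MvPolynomial (Fin m) K) (fun k => g (e.symm k)) v =
      Fintype.linearCombination (MvPolynomial (Fin m) K) g (fun x => v (e x)) := by
    intro v
    funext y
    rw [H48.Hk.lc_apply, H48.Hk.lc_apply]
    exact Fintype.sum_equiv e.symm _ _ (fun x => by simp)
  have h3' : H48.Hk.LR K (Fin m) n 1 (Fin c) (LinearMap.ker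
      (Fintype.linearCombination (MvPolynomial (Fin m) K) (fun k => g (e.symm k)))) := by
    refine H48.Hk.LR_equiv n e ?_ h3
    intro z
    rw [LinearMap.mem_ker, LinearMap.mem_ker, hlc]
  obtain ⟨β, hβ, A, c1, c2, c3, c4⟩ := H48.Hk.LR_extract n _ _ h3'
  subst hβ
  refine ⟨β, fun k => g (e.symm k) (), A, fun k => h1 _ _, ?_, c1, ?_, c3, ⟨n, c4⟩⟩
  · ext f
    have h4 : f ∈ I ↔ (fun _ => f : Unit → MvPolynomial (Fin m) K) ∈ H48.Hk.QI I := Iff.rfl
    rw [h4, ← h2, ← Fintype.range_linearCombination, Ideal.mem_span_range_iff_exists_fun]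
    constructor
    · rintro ⟨v, hv⟩
      refine ⟨fun x => v (e x), ?_⟩
      rw [← hlc]
      funext y
      rw [H48.Hk.lc_apply]
      exact hv
    · rintro ⟨v, hv⟩
      refine ⟨fun k => v (e.symm k), ?_⟩
      have := congrFun hv ()
      rw [H48.Hk.lc_apply] at this
      rw [← this]
      exact Fintype.sum_equiv e.symm _ _ (fun x => by simp)
  · intro v
    have h5 : ∑ k, g (e.symm k) () * v k = 0 ↔ v ∈ LinearMap.ker
        (Fintype.linearCombination (MvPolynomial (Fin m) K) (fun k => g (e.symm k))) := by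
      rw [LinearMap.mem_ker]
      constructor
      · intro h
        funext y
        rw [H48.Hk.lc_apply, Pi.zero_apply, ← h]
        apply Finset.sum_congr rfl
        intro k _
        exact mul_comm _ _
      · intro h
        have := congrFun h ()
        rw [H48.Hk.lc_apply, Pi.zero_apply] at this
        rw [← this]
        apply Finset.sum_congr rfl
        intro k _
        exact mul_comm _ _
    rw [h5, c2]
    constructor
    · rintro ⟨w, hw⟩
      exact ⟨w, funext (fun k => hw k k rfl)⟩
    · rintro ⟨w, hw⟩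
      refine ⟨w, ?_⟩
      intro k k' hk
      have hk' : k = k' := Fin.ext hk
      subst hk'
      rw [hw]

end

/-- For a field of characteristic `0`, every `n ≥ 1` and every `r` with `0 ≤ r ≤ n - 1`, the ideal
`I` of maximal minors of the degenerate Hankel matrix `H[r]` has linear powers: every power `I ^ k`,
`k ≥ 1`, has an `nk`-linear resolution. -/
theorem result (K : Type*) [Field K] [CharZero K] (n r : ℕ) (hr : r + 1 ≤ n) :
    ∀ k : ℕ, 1 ≤ k → HasLinearResolution K (2 * n + 1 - r)
      (minorIdeal K n (2 * n + 1 - r) ^ k) (n * k) := by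
  intro k _
  have hm : 2 * n + 1 - r = n + (n + 1 - r) := by omega
  rw [hm]
  exact of_LR (HK2.LR_pow K (n := n) (μ := n + 1 - r) (by omega) (by omega) k)

end Pool.Agent.Results.MP_0201c8_ag.LinearPowersAll
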